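import Mathlib

/-!
The three dimensional solvable Lie group Sol as a group of real matrices.
-/

namespace Pool.Agent.MP_646035_al.H91

open Real

/-- The matrix of the map `(a, b) ↦ (exp u * a + x, exp (-u) * b + y)` of the plane. -/
noncomputable def solMat (x y u : ℝ) : Matrix (Fin 3) (Fin 3) ℝ :=
  !![exp u, 0, x; 0, exp (-u), y; 0, 0, 1]

lemma solMat_mul (x y u x' y' u' : ℝ) :
    solMat x y u * solMat x' y' u' = solMat (x + exp u * x') (y + exp (-u) * y') (u + u') := by
  ext i j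
  fin_cases i <;> fin_cases j <;>
    simp [solMat, Matrix.mul_apply, Fin.sum_univ_three, exp_add, add_comm, mul_comm]

lemma solMat_zero : solMat 0 0 0 = 1 := by
  ext i j
  fin_cases i <;> fin_cases j <;> simp [solMat]

/-- The group Sol `= ℝ² ⋊ ℝ`: all matrices `solMat x y u`. -/
def Sol : Subgroup (GL (Fin 3) ℝ) where
  carrier := {g | ∃ x y u : ℝ, (g : Matrix (Fin 3) (Fin 3) ℝ) = solMat x y u}
  one_mem' := ⟨0, 0, 0, solMat_zero.symm⟩
  mul_mem' := by
    rintro g g' ⟨x, y, u, h⟩ ⟨x', y', u', h'⟩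
    exact ⟨_, _, _, by rw [Units.val_mul, h, h', solMat_mul]⟩
  inv_mem' := by
    rintro g ⟨x, y, u, h⟩
    refine ⟨-(exp (-u) * x), -(exp u * y), -u, Units.inv_eq_of_mul_eq_one_right ?_⟩
    rw [h, solMat_mul, ← solMat_zero]
    congr 1
    · rw [mul_neg, ← mul_assoc, ← exp_add]; simp
    · rw [mul_neg, ← mul_assoc, ← exp_add]; simp
    · simp

end Pool.Agent.MP_646035_al.H91
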